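import Pool.Agent.Helper20.IIC.Stmts

/-! # Peierls argument: there is an infinite cluster for large `β` -/

namespace IIC

open Filter Topology Set MeasureTheory
open scoped BigOperators

/-- the candidates for the edges of a square containing one of the points `a`, `b` -/
noncomputable def PEI_F {d : ℕ} (a b : Fin d → ℤ) (q : (Bool × Fin 3) × (Fin d × Fin d) × Fin 4) :
    Sym2 (Fin d → ℤ) :=
  let i := q.2.1.1
  let j := q.2.1.2
  let x : Fin d → ℤ := (bif q.1.1 then a else b) - ![0, Pi.single i 1, Pi.single j 1] q.1.2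
  ![s(x, x + Pi.single i 1), s(x, x + Pi.single j 1),
    s(x + Pi.single j 1, x + Pi.single i 1 + Pi.single j 1),
    s(x + Pi.single i 1, x + Pi.single i 1 + Pi.single j 1)] q.2.2

lemma PEI_F_mem {d : ℕ} (a b : Fin d → ℤ) (e e' : Ed d) (he : le e = s(a, b)) (h : Plq e e') :
    ∃ q, PEI_F a b q = le e' := by
  obtain ⟨x, i, j, _, hf⟩ := h
  have h1 := hf e (Or.inl rfl)
  have h2 := hf e' (Or.inr rfl)
  rw [he] at h1
  have hx : ∃ (bb : Bool) (t : Fin 3), (bif bb then a else b) -
      (![0, Pi.single i 1, Pi.single j 1] : Fin 3 → Fin d → ℤ) t = x := by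
    rcases h1 with h1 | h1 | h1 | h1 <;> rw [Sym2.eq_iff] at h1 <;>
      rcases h1 with ⟨h3, h4⟩ | ⟨h3, h4⟩
    · exact ⟨true, 0, by simp [h3]⟩
    · exact ⟨false, 0, by simp [h4]⟩
    · exact ⟨true, 0, by simp [h3]⟩
    · exact ⟨false, 0, by simp [h4]⟩
    · exact ⟨true, 2, by simp [h3]⟩
    · exact ⟨false, 2, by simp [h4]⟩
    · exact ⟨true, 1, by simp [h3]⟩
    · exact ⟨false, 1, by simp [h4]⟩
  obtain ⟨bb, t, hx⟩ := hx
  have key : ∀ k : Fin 4, PEI_F a b ((bb, t), (i, j), k) =
      (![s(x, x + Pi.single i 1), s(x, x + Pi.single j 1),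
    s(x + Pi.single j 1, x + Pi.single i 1 + Pi.single j 1),
    s(x + Pi.single i 1, x + Pi.single i 1 + Pi.single j 1)] : Fin 4 → Sym2 (Fin d → ℤ)) k := by
    intro k
    unfold PEI_F
    simp only
    rw [hx]
  rcases h2 with h2 | h2 | h2 | h2
  · exact ⟨((bb, t), (i, j), 0), by rw [key, h2]; rfl⟩
  · exact ⟨((bb, t), (i, j), 1), by rw [key, h2]; rfl⟩
  · exact ⟨((bb, t), (i, j), 2), by rw [key, h2]; rfl⟩
  · exact ⟨((bb, t), (i, j), 3), by rw [key, h2]; rfl⟩

lemma PEI_nbr (d : ℕ) : ∃ C : ℕ, 1 ≤ C ∧ ∃ nb : Ed d → Finset (Ed d),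
    (∀ e, (nb e).card ≤ C) ∧ ∀ e e', Plq e e' → e' ∈ nb e := by
  classical
  refine ⟨Fintype.card ((Bool × Fin 3) × (Fin d × Fin d) × Fin 4) + 1, by omega, ?_⟩
  have key : ∀ e : Ed d, ∃ s : Finset (Ed d),
      s.card ≤ Fintype.card ((Bool × Fin 3) × (Fin d × Fin d) × Fin 4) + 1 ∧
      ∀ e', Plq e e' → e' ∈ s := by
    rintro ⟨z, hz⟩
    induction z using Sym2.ind with
    | _ a b =>
      refine ⟨(Finset.univ.image (PEI_F a b)).subtype (fun e => e ∈ (lat d).edgeSet), ?_, ?_⟩
      · rw [Finset.card_subtype]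
        refine (Finset.card_filter_le _ _).trans ((Finset.card_image_le).trans ?_)
        rw [Finset.card_univ]
        omega
      · intro e' he'
        obtain ⟨q, hq⟩ := PEI_F_mem a b _ e' rfl he'
        rw [Finset.mem_subtype, Finset.mem_image]
        exact ⟨q, Finset.mem_univ _, hq⟩
  choose nb h1 h2 using key
  exact ⟨nb, h1, h2⟩

/-- sets of edges of paths -/
noncomputable def PEI_S {d : ℕ} (nb : Ed d → Finset (Ed d)) : ℕ → Ed d → Finset (Finset (Ed d)) := by
  classical
  exact fun n => Nat.rec (fun e => {{e}})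
    (fun _ S e => (nb e).biUnion fun e' => (S e').image (insert e)) n

lemma PEI_S_card {d : ℕ} (nb : Ed d → Finset (Ed d)) (C : ℕ) (hC : ∀ e, (nb e).card ≤ C) (n : ℕ) :
    ∀ e, (PEI_S nb n e).card ≤ C ^ n := by
  classical
  induction n with
  | zero => intro e; exact (Finset.card_singleton _).le
  | succ n ih =>
    intro e
    have : PEI_S nb (n + 1) e = (nb e).biUnion fun e' => (PEI_S nb n e').image (insert e) := by
      unfold PEI_S
      rfl
    rw [this]
    calc ((nb e).biUnion fun e' => (PEI_S nb n e').image (insert e)).card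
        ≤ ∑ e' ∈ nb e, ((PEI_S nb n e').image (insert e)).card := Finset.card_biUnion_le
      _ ≤ ∑ e' ∈ nb e, C ^ n := Finset.sum_le_sum fun e' _ => Finset.card_image_le.trans (ih e')
      _ = (nb e).card * C ^ n := by rw [Finset.sum_const, smul_eq_mul]
      _ ≤ C * C ^ n := Nat.mul_le_mul_right _ (hC e)
      _ = C ^ (n + 1) := by ring

open Classical in
lemma PEI_S_mem {d : ℕ} (nb : Ed d → Finset (Ed d)) (hnb : ∀ e e', Plq e e' → e' ∈ nb e) (n : ℕ) :
    ∀ p : ℕ → Ed d, (∀ k < n, Plq (p k) (p (k + 1))) →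
      (Finset.range (n + 1)).image p ∈ PEI_S nb n (p 0) := by
  induction n with
  | zero => intro p _; simp [PEI_S]
  | succ n ih =>
    intro p hp
    have h0 : PEI_S nb (n + 1) (p 0) =
        (nb (p 0)).biUnion fun e' => (PEI_S nb n e').image (insert (p 0)) := by
      unfold PEI_S
      rfl
    rw [h0, Finset.mem_biUnion]
    refine ⟨p 1, hnb _ _ (hp 0 (by omega)), ?_⟩
    rw [Finset.mem_image]
    refine ⟨(Finset.range (n + 1)).image (fun k => p (k + 1)),
      ih (fun k => p (k + 1)) (fun k hk => hp (k + 1) (by omega)), ?_⟩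
    ext e
    simp only [Finset.mem_insert, Finset.mem_image, Finset.mem_range]
    constructor
    · rintro (rfl | ⟨k, hk, rfl⟩)
      · exact ⟨0, by omega, rfl⟩
      · exact ⟨k + 1, by omega, rfl⟩
    · rintro ⟨k, hk, rfl⟩
      cases k with
      | zero => exact Or.inl rfl
      | succ k => exact Or.inr ⟨k, by omega, rfl⟩

/-- the edges of the half axis -/
noncomputable def PEI_e {d : ℕ} (i₀ : Fin d) (L : ℕ) : Ed d :=
  ⟨s(Pi.single i₀ (L : ℤ), Pi.single i₀ ((L : ℤ) + 1)), by
    rw [SimpleGraph.mem_edgeSet]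
    show ∑ i, |(Pi.single i₀ (L : ℤ) : Fin d → ℤ) i - (Pi.single i₀ ((L : ℤ) + 1) : Fin d → ℤ) i| = 1
    rw [Finset.sum_eq_single i₀]
    · simp
    · intro b _ hb; simp [hb]
    · simp⟩

lemma PEI_union {d : ℕ} (hcont : ST_CONT) (β : ℝ) (hβ : 0 ≤ β) (Λ : Finset (Ed d)) {ι : Type*}
    (s : Finset ι) (A : ι → Set (Cfg d)) :
    PW β Λ (⋃ i ∈ s, A i) ≤ ∑ i ∈ s, PW β Λ (A i) := by
  classical
  obtain ⟨_, h⟩ := hcont d Λ
  obtain ⟨h1, h0, hm, ha, hc⟩ := h β hβ
  induction s using Finset.induction_on with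
  | empty => simp [h0]
  | insert i s hi ih =>
    rw [Finset.set_biUnion_insert, Finset.sum_insert hi]
    have e1 : A i ∪ ⋃ x ∈ s, A x = A i ∪ ((⋃ x ∈ s, A x) \ A i) := by
      rw [Set.union_sdiff_self]
    rw [e1, ha _ _ Set.disjoint_sdiff_right]
    exact add_le_add le_rfl ((hm _ _ Set.sdiff_subset).trans ih)

lemma PEI_closed {d : ℕ} (Λ T : Finset (Ed d)) (e : Ed d) (h : exw Λ T e = false) : e ∈ Λ := by
  by_contra hn
  unfold exw ext at h
  simp [hn] at h

theorem st_PEI (pe1 : ST_PE1) (pe2 : ST_PE2) (hcont : ST_CONT) : ST_PEI := by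
  classical
  intro d hd
  obtain ⟨C, hC1, nb, hcard, hnb⟩ := PEI_nbr d
  have i₀ : Fin d := ⟨0, by omega⟩
  have hCr : (1 : ℝ) ≤ C := by exact_mod_cast hC1
  set β : ℝ := Real.log (1 + 16 * C) / 2 with hβdef
  have hlog : 0 < Real.log (1 + 16 * C) := Real.log_pos (by linarith)
  have hβ : 0 < β := by rw [hβdef]; positivity
  have hexp : Real.exp (2 * β) - 1 = 16 * C := by
    rw [hβdef, mul_div_cancel₀ _ (two_ne_zero), Real.exp_log (by linarith)]
    ring
  have heps : 2 / (Real.exp (2 * β) - 1) = 1 / (8 * C) := by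
    rw [hexp]; field_simp; norm_num
  refine ⟨β, hβ, ?_⟩
  have main : ∀ Λ : Finset (Ed d), 2 / 3 ≤ PW β Λ (IN 0) := by
    intro Λ
    obtain ⟨_, h⟩ := hcont d Λ
    obtain ⟨h1, h0, hm, ha, hc⟩ := h β hβ.le
    -- the index set
    let I : Finset ((_ : ℕ) × (_ : ℕ) × Finset (Ed d)) :=
      (Finset.range Λ.card).sigma fun n => (Finset.range (n + 2)).sigma fun L =>
        (PEI_S nb n (PEI_e i₀ L)).filter fun K => K ⊆ Λ ∧ K.card = n + 1
    have hcover : ∀ T ⊆ Λ, exw Λ T ∈ (IN (0 : Fin d → ℤ))ᶜ →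
        exw Λ T ∈ ⋃ q ∈ I, EF q.2.2 := by
      intro T hT hin
      obtain ⟨n, p, L, hL, hp0, hstep, hcl, hinj⟩ := pe2 d hd i₀ Λ T hT hin
      have hK1 : ((Finset.range (n + 1)).image p).card = n + 1 := by
        rw [Finset.card_image_of_injOn, Finset.card_range]
        intro a ha b hb hab
        refine hinj ?_ ?_ hab
        · simp only [Finset.coe_range, Set.mem_Iio] at ha
          simp only [Set.mem_Iic]; omega
        · simp only [Finset.coe_range, Set.mem_Iio] at hb
          simp only [Set.mem_Iic]; omega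
      have hK2 : (Finset.range (n + 1)).image p ⊆ Λ := by
        intro e he
        rw [Finset.mem_image] at he
        obtain ⟨k, hk, rfl⟩ := he
        rw [Finset.mem_range] at hk
        exact PEI_closed Λ T _ (hcl k (by omega))
      have hp0' : p 0 = PEI_e i₀ L := Subtype.ext hp0
      have hn : n < Λ.card := by
        have := Finset.card_le_card hK2
        omega
      rw [Set.mem_iUnion₂]
      refine ⟨⟨n, L, (Finset.range (n + 1)).image p⟩, ?_, ?_⟩
      · simp only [I, Finset.mem_sigma, Finset.mem_range, Finset.mem_filter]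
        refine ⟨hn, by omega, ?_, hK2, hK1⟩
        rw [← hp0']
        exact PEI_S_mem nb hnb n p hstep
      · intro e he
        simp only [Finset.mem_image, Finset.mem_range] at he
        obtain ⟨k, hk, rfl⟩ := he
        exact hcl k (by omega)
    have hle : PW β Λ (IN (0 : Fin d → ℤ))ᶜ ≤ PW β Λ (⋃ q ∈ I, EF q.2.2) := by
      rw [hc (IN (0 : Fin d → ℤ))ᶜ ((IN (0 : Fin d → ℤ))ᶜ ∩ ⋃ q ∈ I, EF q.2.2) (fun T hT =>
        ⟨fun h => ⟨h, hcover T hT h⟩, fun h => h.1⟩)]
      exact hm _ _ Set.inter_subset_right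
    have hsum : PW β Λ (⋃ q ∈ I, EF q.2.2) ≤ 1 / 3 := by
      refine (PEI_union hcont β hβ.le Λ I (fun q => EF q.2.2)).trans ?_
      have e1 : ∑ q ∈ I, PW β Λ (EF q.2.2) = ∑ n ∈ Finset.range Λ.card,
          ∑ L ∈ Finset.range (n + 2), ∑ K ∈ (PEI_S nb n (PEI_e i₀ L)).filter
            (fun K => K ⊆ Λ ∧ K.card = n + 1), PW β Λ (EF K) := by
        simp only [I]
        rw [Finset.sum_sigma]
        refine Finset.sum_congr rfl fun n _ => ?_
        rw [Finset.sum_sigma]
      rw [e1]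
      have e2 : ∀ n ∈ Finset.range Λ.card, ∑ L ∈ Finset.range (n + 2),
          ∑ K ∈ (PEI_S nb n (PEI_e i₀ L)).filter (fun K => K ⊆ Λ ∧ K.card = n + 1),
            PW β Λ (EF K) ≤ (1 / 4 : ℝ) ^ (n + 1) := by
        intro n _
        have e3 : ∀ L ∈ Finset.range (n + 2),
            ∑ K ∈ (PEI_S nb n (PEI_e i₀ L)).filter (fun K => K ⊆ Λ ∧ K.card = n + 1),
              PW β Λ (EF K) ≤ (1 / 8 : ℝ) ^ (n + 1) := by
          intro L _
          calc ∑ K ∈ (PEI_S nb n (PEI_e i₀ L)).filter (fun K => K ⊆ Λ ∧ K.card = n + 1),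
                PW β Λ (EF K)
              ≤ ∑ K ∈ (PEI_S nb n (PEI_e i₀ L)).filter (fun K => K ⊆ Λ ∧ K.card = n + 1),
                (1 / (8 * (C : ℝ))) ^ (n + 1) := by
                refine Finset.sum_le_sum fun K hK => ?_
                rw [Finset.mem_filter] at hK
                have := pe1 d β hβ Λ K hK.2.1
                rwa [hK.2.2, heps] at this
            _ = ((PEI_S nb n (PEI_e i₀ L)).filter
                  (fun K => K ⊆ Λ ∧ K.card = n + 1)).card * (1 / (8 * (C : ℝ))) ^ (n + 1) := by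
                rw [Finset.sum_const, nsmul_eq_mul]
            _ ≤ (C : ℝ) ^ n * (1 / (8 * (C : ℝ))) ^ (n + 1) := by
                refine mul_le_mul_of_nonneg_right ?_ (by positivity)
                have h5 := (Finset.card_filter_le (PEI_S nb n (PEI_e i₀ L))
                  (fun K => K ⊆ Λ ∧ K.card = n + 1)).trans (PEI_S_card nb C hcard n (PEI_e i₀ L))
                exact_mod_cast h5
            _ = (1 / 8 : ℝ) ^ (n + 1) * (1 / C) := by
                have hC0 : (C : ℝ) ≠ 0 := by positivity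
                have e5 : (1 / (8 * (C : ℝ))) = (1 / 8) * (1 / C) := by field_simp
                have e6 : (C : ℝ) ^ n * (1 / C) ^ n = 1 := by
                  rw [← mul_pow, mul_one_div_cancel hC0, one_pow]
                rw [e5, mul_pow, pow_succ (1 / (C : ℝ))]
                calc (C : ℝ) ^ n * ((1 / 8) ^ (n + 1) * ((1 / C) ^ n * (1 / C)))
                    = ((C : ℝ) ^ n * (1 / C) ^ n) * ((1 / 8) ^ (n + 1) * (1 / C)) := by ring
                  _ = (1 / 8) ^ (n + 1) * (1 / C) := by rw [e6, one_mul]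
            _ ≤ (1 / 8 : ℝ) ^ (n + 1) := by
                refine mul_le_of_le_one_right (by positivity) ?_
                rw [div_le_one (by positivity)]
                exact hCr
        calc ∑ L ∈ Finset.range (n + 2), ∑ K ∈ (PEI_S nb n (PEI_e i₀ L)).filter
              (fun K => K ⊆ Λ ∧ K.card = n + 1), PW β Λ (EF K)
            ≤ ∑ L ∈ Finset.range (n + 2), (1 / 8 : ℝ) ^ (n + 1) := Finset.sum_le_sum e3
          _ = (n + 2 : ℝ) * (1 / 8 : ℝ) ^ (n + 1) := by
              rw [Finset.sum_const, Finset.card_range, nsmul_eq_mul]; push_cast; ring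
          _ ≤ (2 : ℝ) ^ (n + 1) * (1 / 8 : ℝ) ^ (n + 1) := by
              refine mul_le_mul_of_nonneg_right ?_ (by positivity)
              have h6 : n + 1 < 2 ^ (n + 1) := Nat.lt_two_pow_self
              have h7 : n + 2 ≤ 2 ^ (n + 1) := by omega
              exact_mod_cast h7
          _ = (1 / 4 : ℝ) ^ (n + 1) := by rw [← mul_pow]; norm_num
      refine (Finset.sum_le_sum e2).trans ?_
      have e4 : ∀ N : ℕ, ∑ n ∈ Finset.range N, (1 / 4 : ℝ) ^ (n + 1) ≤ 1 / 3 - (1 / 3) * (1 / 4) ^ N := by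
        intro N
        induction N with
        | zero => simp
        | succ N ih =>
          rw [Finset.sum_range_succ]
          have : (1 / 4 : ℝ) ^ (N + 1) = (1 / 4) ^ N * (1 / 4) := pow_succ _ _
          nlinarith [ih]
      have := e4 Λ.card
      have h8 : (0 : ℝ) ≤ (1 / 3) * (1 / 4) ^ Λ.card := by positivity
      linarith
    have hadd := ha (IN (0 : Fin d → ℤ)) (IN (0 : Fin d → ℤ))ᶜ disjoint_compl_right
    rw [Set.union_compl_self, h1] at hadd
    linarith
  have : (2 / 3 : ℝ) ≤ th d β := le_ciInf main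
  linarith

end IIC
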